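import Pool.Agent.H978R2.Hex.Potential

set_option autoImplicit false

/-! The linear potential: weights `v k` on the sides `k = -3, …, 4`, multiplied by `g = 1.0343` in one
sweep over all sides. -/

namespace Pool.Agent.TH232.Hex

open H978R2.Hex Complex

/-- `A cos (k π/8) + B sin (k π/8)` -/
noncomputable def F (A B : ℝ) (k : ℤ) : ℝ :=
  A * Real.cos ((k : ℝ) * (Real.pi / 8)) + B * Real.sin ((k : ℝ) * (Real.pi / 8))

theorem sum_F (M : ℤ → ℝ) (A B : ℝ)
    (h : ∑ k ∈ Finset.Icc (-4 : ℤ) 5, exp ((k : ℂ) * (Real.pi / 8) * I) * (M k : ℂ) = 1) :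
    ∑ k ∈ Finset.Icc (-4 : ℤ) 5, F A B k * M k = A := by
  have h1 := re_identity M h
  have h2 := im_identity M 0 h
  simp only [Int.cast_zero, sub_zero, zero_mul, Real.sin_zero, neg_zero] at h2
  have e : ∀ k ∈ Finset.Icc (-4 : ℤ) 5, F A B k * M k =
      A * (Real.cos ((k : ℝ) * (Real.pi / 8)) * M k) +
        B * (Real.sin ((k : ℝ) * (Real.pi / 8)) * M k) := by
    intro k _
    unfold F
    ring
  rw [Finset.sum_congr rfl e, Finset.sum_add_distrib, ← Finset.mul_sum, ← Finset.mul_sum, h1, h2]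
  ring

/-- one push of the side `k0` -/
theorem pot (M M' : ℤ → ℝ) (k0 : ℤ) (A B : ℝ) (w w' : ℤ → ℝ)
    (h : ∑ k ∈ Finset.Icc (-4 : ℤ) 5, exp ((k : ℂ) * (Real.pi / 8) * I) * (M k : ℂ) = 1)
    (h' : ∑ k ∈ Finset.Icc (-4 : ℤ) 5, exp ((k : ℂ) * (Real.pi / 8) * I) * (M' k : ℂ) = 1)
    (mono : ∀ k ∈ Finset.Icc (-4 : ℤ) 5, k ≠ k0 → M k ≤ M' k) (hz : M' k0 = 0) (hM : 0 ≤ M k0)
    (hw : ∀ k ∈ Finset.Icc (-4 : ℤ) 5, k ≠ k0 → F A B k ≤ w k ∧ w' k = w k)
    (h0 : w k0 ≤ F A B k0) :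
    ∑ k ∈ Finset.Icc (-4 : ℤ) 5, w k * M k ≤ ∑ k ∈ Finset.Icc (-4 : ℤ) 5, w' k * M' k := by
  have h1 := sum_F M A B h
  have h2 := sum_F M' A B h'
  have h3 : ∑ k ∈ Finset.Icc (-4 : ℤ) 5, (w k * M k + (F A B k * M' k - F A B k * M k)) ≤
      ∑ k ∈ Finset.Icc (-4 : ℤ) 5, w' k * M' k := by
    apply Finset.sum_le_sum
    intro k hk
    by_cases hk0 : k = k0
    · subst hk0
      rw [hz]
      nlinarith
    · obtain ⟨a, b⟩ := hw k hk hk0
      have c := mono k hk hk0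
      rw [b]
      nlinarith
  rw [Finset.sum_add_distrib, Finset.sum_sub_distrib, h1, h2] at h3
  linarith

/-! ### numerical values -/

theorem r2_gt : 0.7071067811 < Real.sqrt 2 / 2 := by
  have h1 := s2sq
  have h2 := s2_pos
  nlinarith

theorem r2_lt : Real.sqrt 2 / 2 < 0.7071067812 := by
  have h1 := s2sq
  have h2 := s2_pos
  nlinarith

theorem s8_sq : Real.sin (Real.pi / 8) ^ 2 = (1 - Real.sqrt 2 / 2) / 2 := by
  rw [sin8_sq]; ring

theorem c8_pos : 0 < Real.cos (Real.pi / 8) :=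
  Real.cos_pos_of_mem_Ioo ⟨by have := Real.pi_pos; linarith, by have := Real.pi_pos; linarith⟩

theorem c8_sq : Real.cos (Real.pi / 8) ^ 2 = (1 + Real.sqrt 2 / 2) / 2 := by
  have := Real.sin_sq_add_cos_sq (Real.pi / 8)
  rw [s8_sq] at this
  linarith

theorem s8_gt : 0.38268343 < Real.sin (Real.pi / 8) := by
  have h1 := s8_sq
  have h2 := sin8_pos
  have h3 := r2_lt
  nlinarith

theorem s8_lt : Real.sin (Real.pi / 8) < 0.38268344 := by
  have h1 := s8_sq
  have h2 := sin8_pos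
  have h3 := r2_gt
  nlinarith

theorem c8_gt : 0.92387953 < Real.cos (Real.pi / 8) := by
  have h1 := c8_sq
  have h2 := c8_pos
  have h3 := r2_gt
  nlinarith

theorem c8_lt : Real.cos (Real.pi / 8) < 0.92387954 := by
  have h1 := c8_sq
  have h2 := c8_pos
  have h3 := r2_lt
  nlinarith

theorem cos_3 : Real.cos (3 * (Real.pi / 8)) = Real.sin (Real.pi / 8) := by
  rw [show 3 * (Real.pi / 8) = Real.pi / 2 - Real.pi / 8 by ring, Real.cos_pi_div_two_sub]

theorem sin_3 : Real.sin (3 * (Real.pi / 8)) = Real.cos (Real.pi / 8) := by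
  rw [show 3 * (Real.pi / 8) = Real.pi / 2 - Real.pi / 8 by ring, Real.sin_pi_div_two_sub]

theorem F_m4 (A B : ℝ) : F A B (-4) = -B := by
  unfold F
  push_cast
  rw [show -4 * (Real.pi / 8) = -(Real.pi / 2) by ring, Real.cos_neg, Real.sin_neg,
    Real.cos_pi_div_two, Real.sin_pi_div_two]
  ring

theorem F_m3 (A B : ℝ) : F A B (-3) = A * Real.sin (Real.pi / 8) - B * Real.cos (Real.pi / 8) := by
  unfold F
  push_cast
  rw [show -3 * (Real.pi / 8) = -(3 * (Real.pi / 8)) by ring, Real.cos_neg, Real.sin_neg,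
    cos_3, sin_3]
  ring

theorem F_m2 (A B : ℝ) : F A B (-2) = (A - B) * (Real.sqrt 2 / 2) := by
  unfold F
  push_cast
  rw [show -2 * (Real.pi / 8) = -(Real.pi / 4) by ring, Real.cos_neg, Real.sin_neg,
    Real.cos_pi_div_four, Real.sin_pi_div_four]
  ring

theorem F_m1 (A B : ℝ) : F A B (-1) = A * Real.cos (Real.pi / 8) - B * Real.sin (Real.pi / 8) := by
  unfold F
  push_cast
  rw [show -1 * (Real.pi / 8) = -(Real.pi / 8) by ring, Real.cos_neg, Real.sin_neg]
  ring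

theorem F_0 (A B : ℝ) : F A B 0 = A := by
  unfold F
  simp

theorem F_1 (A B : ℝ) : F A B 1 = A * Real.cos (Real.pi / 8) + B * Real.sin (Real.pi / 8) := by
  unfold F
  push_cast
  rw [one_mul]

theorem F_2 (A B : ℝ) : F A B 2 = (A + B) * (Real.sqrt 2 / 2) := by
  unfold F
  push_cast
  rw [show 2 * (Real.pi / 8) = Real.pi / 4 by ring, Real.cos_pi_div_four, Real.sin_pi_div_four]
  ring

theorem F_3 (A B : ℝ) : F A B 3 = A * Real.sin (Real.pi / 8) + B * Real.cos (Real.pi / 8) := by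
  unfold F
  push_cast
  rw [cos_3, sin_3]

theorem F_4 (A B : ℝ) : F A B 4 = B := by
  unfold F
  push_cast
  rw [show 4 * (Real.pi / 8) = Real.pi / 2 by ring, Real.cos_pi_div_two, Real.sin_pi_div_two]
  ring

theorem F_5 (A B : ℝ) : F A B 5 = -(A * Real.sin (Real.pi / 8)) + B * Real.cos (Real.pi / 8) := by
  unfold F
  push_cast
  rw [show 5 * (Real.pi / 8) = Real.pi / 8 + Real.pi / 2 by ring, Real.cos_add_pi_div_two,
    Real.sin_add_pi_div_two]
  ring

/-- the growth factor of the potential in one sweep -/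
noncomputable def gr : ℝ := 1.0343

/-- the weights of the sides -/
noncomputable def v (k : ℤ) : ℝ :=
  if k = -3 then 3597671 else if k = -2 then 6648352 else if k = -1 then 8807525 else
  if k = 0 then 9848078 else if k = 1 then 9683407 else if k = 2 then 8373058 else
  if k = 3 then 6110795 else if k = 4 then 3197118 else 0

theorem v_nonneg (k : ℤ) : 0 ≤ v k := by
  unfold v
  split_ifs <;> norm_num

/-- the weights after the sides `-3, …, i - 4` have been pushed -/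
noncomputable def wt (i : ℕ) (k : ℤ) : ℝ := if k < (i : ℤ) - 3 then v k / gr else v k

theorem wt_zero (k : ℤ) (hk : k ∈ Finset.Icc (-4 : ℤ) 5) : wt 0 k = v k := by
  unfold wt
  rw [Finset.mem_Icc] at hk
  split_ifs with h
  · have : k = -4 := by push_cast at h; omega
    subst this
    simp [v]
  · rfl

theorem wt_eight (k : ℤ) (hk : k ∈ Finset.Icc (-4 : ℤ) 5) : wt 8 k = v k / gr := by
  unfold wt
  rw [Finset.mem_Icc] at hk
  split_ifs with h
  · rfl
  · have : k = 5 := by push_cast at h; omega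
    subst this
    simp [v]

theorem wt_succ (i : ℕ) (k : ℤ) (hk : k ≠ (i : ℤ) - 3) : wt (i + 1) k = wt i k := by
  unfold wt
  push_cast
  by_cases h : k < (i : ℤ) - 3
  · rw [if_pos h, if_pos (by omega)]
  · rw [if_neg h, if_neg (by omega)]

/-- the certificates -/
noncomputable def cA (i : ℕ) : ℝ :=
  match i with
  | 0 => 9401863
  | 1 => 9624724
  | 2 => 9847684
  | 3 => 9848754
  | 4 => 9521110
  | 5 => 8924914
  | 6 => 8251157
  | _ => 7719121

noncomputable def cB (i : ℕ) : ℝ :=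
  match i with
  | 0 => 50
  | 1 => 221889
  | 2 => 757658
  | 3 => 1525955
  | 4 => 2319709
  | 5 => 2917192
  | 6 => 3196990
  | _ => 3197310

set_option maxHeartbeats 4000000 in
theorem cert (i : ℕ) (hi : i < 8) (k : ℤ) (hk : k ∈ Finset.Icc (-4 : ℤ) 5) :
    (k ≠ (i : ℤ) - 3 → F (cA i) (cB i) k ≤ wt i k) ∧
    (k = (i : ℤ) - 3 → wt i k ≤ F (cA i) (cB i) k) := by
  have a1 := r2_gt
  have a2 := r2_lt
  have a3 := s8_gt
  have a4 := s8_lt
  have a5 := c8_gt
  have a6 := c8_lt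
  obtain ⟨r, hr⟩ : ∃ r, r = Real.sqrt 2 / 2 := ⟨_, rfl⟩
  obtain ⟨s, hs⟩ : ∃ s, s = Real.sin (Real.pi / 8) := ⟨_, rfl⟩
  obtain ⟨c, hc⟩ : ∃ c, c = Real.cos (Real.pi / 8) := ⟨_, rfl⟩
  rw [← hr] at a1 a2
  rw [← hs] at a3 a4
  rw [← hc] at a5 a6
  rw [Finset.mem_Icc] at hk
  obtain ⟨hk1, hk2⟩ := hk
  interval_cases i <;> interval_cases k <;>
    simp only [F_m4, F_m3, F_m2, F_m1, F_0, F_1, F_2, F_3, F_4, F_5, ← hr, ← hs, ← hc, cA, cB] <;>
    constructor <;> intro hne <;> norm_num at hne <;>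
    norm_num [wt, v, gr] <;> linarith

end Pool.Agent.TH232.Hex
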