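import Pool.Agent.H978R2.Hex.Geo
import Pool.Agent.H978R2.Hex.MassLemmas
import Pool.Agent.TH232.Hex.Pot

set_option autoImplicit false

/-! Pushing the sides of the domain outwards, one after the other, until they disappear. -/

namespace Pool.Agent.TH232.Hex

open H978R2.Hex Complex

/-- domains in which every side can be pushed outwards until it disappears -/
structure Good (p : Par) : Prop where
  ok : Ok p
  g0 : p.a2 + 1 ≤ p.c1
  g1 : p.c1 - 2 * p.Q - 1 ≤ p.a2
  g2 : 2 * p.Q ≤ p.d - p.a2 + 2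
  g3 : p.d ≤ p.b + 2 * p.Q + 1
  g4 : p.b ≤ p.d + 2 * p.R + 1
  g5 : 2 * p.R ≤ p.b - p.c3 + 2
  g6 : p.a4 - 2 * p.R - 1 ≤ p.c3
  g7 : p.c3 + 1 ≤ p.a4

/-- the side `i - 3` is pushed outwards -/
def push (p : Par) (i : ℕ) : Par :=
  match i with
  | 0 => { p with c1 := p.a2 + 1 }
  | 1 => { p with a2 := p.c1 - 2 * p.Q - 1 }
  | 2 => { p with Q := (p.d - p.a2) / 2 + 1 }
  | 3 => { p with d := p.b + 2 * p.Q + 1 }
  | 4 => { p with b := p.d + 2 * p.R + 1 }
  | 5 => { p with R := (p.b - p.c3) / 2 + 1 }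
  | 6 => { p with c3 := p.a4 - 2 * p.R - 1 }
  | _ => { p with a4 := p.c3 + 1 }

theorem good_push {p : Par} (h : Good p) (i : ℕ) (hi : i < 8) : Good (push p i) := by
  obtain ⟨⟨hb, hd, ha4, hc3, ha2, hc1, hR, hQ, b1, d2, a42, c31, a20, c11⟩, g0, g1, g2, g3, g4, g5,
    g6, g7⟩ := h
  interval_cases i <;> refine ⟨?_, ?_, ?_, ?_, ?_, ?_, ?_, ?_, ?_⟩ <;>
    (try constructor) <;> simp only [push] <;> omega

theorem om_push {p : Par} (h : Good p) (i : ℕ) (hi : i < 8) (x : V) (hx : Om p x) :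
    Om (push p i) x := by
  obtain ⟨⟨hb, hd, ha4, hc3, ha2, hc1, hR, hQ, b1, d2, a42, c31, a20, c11⟩, g0, g1, g2, g3, g4, g5,
    g6, g7⟩ := h
  obtain ⟨o1, o2, o3, o4, o5, o6, o7⟩ := hx
  interval_cases i <;> refine ⟨?_, ?_, ?_, ?_, ?_, o6, ?_⟩ <;> simp only [push] <;> omega

theorem out_push {p : Par} (i : ℕ) (hi : i < 8) (k : ℤ) (hk : k ≠ (i : ℤ) - 3) (z : V)
    (h : Out p k z) : ¬ Om (push p i) z := by
  rintro ⟨o1, o2, o3, o4, o5, o6, o7⟩
  unfold Out Slit at h
  interval_cases i <;> simp only [push] at o1 o2 o3 o4 o5 o6 o7 <;> omega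

theorem inactive_push {p : Par} (h : Good p) (i : ℕ) (hi : i < 8) (x z : V)
    (hx : Om (push p i) x) (ha : Adj x z) (_hz : ¬ Om (push p i) z) :
    ¬ Out (push p i) ((i : ℤ) - 3) z := by
  rw [adj_iff] at ha
  obtain ⟨⟨hb, hd, ha4, hc3, ha2, hc1, hR, hQ, b1, d2, a42, c31, a20, c11⟩, g0, g1, g2, g3, g4, g5,
    g6, g7⟩ := h
  obtain ⟨o1, o2, o3, o4, o5, o6, o7⟩ := hx
  intro hh
  unfold Out Slit at hh
  interval_cases i <;> simp only [push] at o1 o2 o3 o4 o5 o6 o7 hh <;> norm_num at hh <;>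
    (rcases lt_trichotomy x.2 0 with c | c | c) <;> omega

/-- one push -/
theorem push_pot {p : Par} (h : Good p) (i : ℕ) (hi : i < 8) (S : Finset V)
    (hS : ∀ x, Om (push p i) x → x ∈ S) (n : ℕ) (hn : S.card ≤ n) :
    ∑ k ∈ Finset.Icc (-4 : ℤ) 5, wt i k * Mass (Om p) n k ≤
      ∑ k ∈ Finset.Icc (-4 : ℤ) 5, wt (i + 1) k * Mass (Om (push p i)) n k := by
  refine pot (fun k => Mass (Om p) n k) (fun k => Mass (Om (push p i)) n k) ((i : ℤ) - 3)
    (cA i) (cB i) (wt i) (wt (i + 1))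
    (mass_identity p h.ok S (fun x hx => hS x (om_push h i hi x hx)) n hn)
    (mass_identity _ (good_push h i hi).ok S hS n hn) ?_ ?_ ?_ ?_ ?_
  · intro k _ hk
    exact mass_mono _ _ h.ok (om_push h i hi) k (out_push i hi k hk) n
  · exact mass_zero _ (good_push h i hi).ok _ (inactive_push h i hi) n
  · exact mass_nonneg _ n _
  · intro k hk hk0
    exact ⟨(cert i hi k hk).1 hk0, wt_succ i k hk0⟩
  · have hk : ((i : ℤ) - 3) ∈ Finset.Icc (-4 : ℤ) 5 := by
      rw [Finset.mem_Icc]; omega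
    exact (cert i hi _ hk).2 rfl

/-- the domains after `i` pushes -/
def st (p : Par) : ℕ → Par
  | 0 => p
  | i + 1 => push (st p i) i

theorem good_st {p : Par} (h : Good p) (i : ℕ) (hi : i ≤ 8) : Good (st p i) := by
  induction i with
  | zero => exact h
  | succ i ih => exact good_push (ih (by omega)) i (by omega)

theorem om_st {p : Par} (h : Good p) {i j : ℕ} (hij : i ≤ j) (hj : j ≤ 8) (x : V)
    (hx : Om (st p i) x) : Om (st p j) x := by
  induction j with
  | zero =>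
    have : i = 0 := by omega
    subst this
    exact hx
  | succ j ih =>
    rcases Nat.lt_or_ge i (j + 1) with h1 | h1
    · exact om_push (good_st h j (by omega)) j (by omega) x (ih (by omega) (by omega))
    · have : i = j + 1 := by omega
      subst this
      exact hx

/-- the potential -/
noncomputable def Phi (p : Par) (n : ℕ) : ℝ :=
  ∑ k ∈ Finset.Icc (-4 : ℤ) 5, v k * Mass (Om p) n k

/-- one sweep -/
theorem sweep_pot {p : Par} (h : Good p) (S : Finset V)
    (hS : ∀ x, Om (st p 8) x → x ∈ S) (n : ℕ) (hn : S.card ≤ n) :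
    gr * Phi p n ≤ Phi (st p 8) n := by
  have key : ∀ i : ℕ, i ≤ 8 → ∑ k ∈ Finset.Icc (-4 : ℤ) 5, wt 0 k * Mass (Om p) n k ≤
      ∑ k ∈ Finset.Icc (-4 : ℤ) 5, wt i k * Mass (Om (st p i)) n k := by
    intro i
    induction i with
    | zero => intro _; exact le_rfl
    | succ i ih =>
      intro hi
      refine (ih (by omega)).trans ?_
      exact push_pot (good_st h i (by omega)) i (by omega) S
        (fun x hx => hS x (om_st h (i := i + 1) (by omega) le_rfl x hx)) n hn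
  have h8 := key 8 le_rfl
  have e0 : ∑ k ∈ Finset.Icc (-4 : ℤ) 5, wt 0 k * Mass (Om p) n k = Phi p n := by
    unfold Phi
    exact Finset.sum_congr rfl fun k hk => by rw [wt_zero k hk]
  have e8 : ∑ k ∈ Finset.Icc (-4 : ℤ) 5, wt 8 k * Mass (Om (st p 8)) n k =
      Phi (st p 8) n / gr := by
    unfold Phi
    rw [Finset.sum_div]
    exact Finset.sum_congr rfl fun k hk => by rw [wt_eight k hk]; ring
  rw [e0, e8, le_div_iff₀ (by unfold gr; norm_num)] at h8
  linarith

end Pool.Agent.TH232.Hex
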