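import Pool.Agent.H978R2.Hex.Lower
import Pool.Agent.TH232.Hex.Push

set_option autoImplicit false

/-! The lower bound `a_n ≥ (2/5) μ^n n^(1/75)` for the honeycomb lattice. -/

namespace Pool.Agent.TH232.Hex

open H978R2.Hex Complex

/-! ### the number of walks and the masses on the two sides of the slit -/

theorem re_z (w : ℤ) : ((⟨1, -(1 / 5)⟩ : ℂ) * exp ((w : ℂ) * (Real.pi / 8) * I)).re =
    F 1 (1 / 5) w := by
  have h : (w : ℂ) * (Real.pi / 8) * I = (((w : ℝ) * (Real.pi / 8) : ℝ) : ℂ) * I := by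
    push_cast
    ring
  rw [h, Complex.mul_re, Complex.exp_ofReal_mul_I_re, Complex.exp_ofReal_mul_I_im]
  unfold F
  ring

theorem F_le (w : ℤ) : F 1 (1 / 5) w ≤ 51 / 50 := by
  unfold F
  have h := Real.sin_sq_add_cos_sq ((w : ℝ) * (Real.pi / 8))
  nlinarith [sq_nonneg (Real.sin ((w : ℝ) * (Real.pi / 8)) -
    1 / 5 * Real.cos ((w : ℝ) * (Real.pi / 8)))]

theorem lower2 (n : ℕ) :
    mu0 ^ n * (1 - F 1 (1 / 5) 5 * Mass SlitPlane n 5 - F 1 (1 / 5) (-4) * Mass SlitPlane n (-4)) ≤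
      51 / 50 * (Set.ncard (saws n) : ℝ) := by
  have hid := ident SlitPlane (by unfold SlitPlane Slit; norm_num) (fun v h => h) n
  have hid2 := congrArg (fun x => ((⟨1, -(1 / 5)⟩ : ℂ) * x).re) hid
  rw [Finset.mul_sum, Complex.re_sum] at hid2
  have h1 : ∑ l ∈ Free SlitPlane n, ((⟨1, -(1 / 5)⟩ : ℂ) *
      exp ((W l : ℂ) * (Real.pi / 8) * I)).re ≤ 51 / 50 * (Set.ncard (saws n) : ℝ) := by
    calc ∑ l ∈ Free SlitPlane n, ((⟨1, -(1 / 5)⟩ : ℂ) * exp ((W l : ℂ) * (Real.pi / 8) * I)).re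
        ≤ ∑ l ∈ Free SlitPlane n, (51 / 50 : ℝ) := by
          refine Finset.sum_le_sum fun l _ => ?_
          rw [re_z]
          exact F_le _
      _ = 51 / 50 * ((Free SlitPlane n).card : ℝ) := by simp [mul_comm]
      _ ≤ _ := by
          have := card_free_le n
          have h2 : ((Free SlitPlane n).card : ℝ) ≤ (Set.ncard (saws n) : ℝ) := by
            exact_mod_cast this
          linarith
  refine le_trans (le_of_eq ?_) h1
  rw [hid2]
  have e1 : ((⟨1, -(1 / 5)⟩ : ℂ) * ((mu0 : ℂ) ^ n * (1 - ∑ m ∈ Finset.range (n + 1),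
        ∑ l ∈ (P SlitPlane m).filter (fun l => ¬ SlitPlane (l.headD (0, 0))),
          exp ((W l : ℂ) * (Real.pi / 8) * I) * ((mu0 : ℂ)⁻¹) ^ m))).re =
      mu0 ^ n * (1 - ∑ m ∈ Finset.range (n + 1),
        ∑ l ∈ (P SlitPlane m).filter (fun l => ¬ SlitPlane (l.headD (0, 0))),
          F 1 (1 / 5) (W l) * (mu0⁻¹) ^ m) := by
    have e1 : (mu0 : ℂ) ^ n = ((mu0 ^ n : ℝ) : ℂ) := by push_cast; rfl
    rw [e1, mul_left_comm, Complex.re_ofReal_mul, mul_sub, mul_one, Complex.sub_re,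
      Finset.mul_sum, Complex.re_sum]
    congr 2
    refine Finset.sum_congr rfl fun m _ => ?_
    rw [Finset.mul_sum, Complex.re_sum]
    refine Finset.sum_congr rfl fun l _ => ?_
    have e2 : ((mu0 : ℂ)⁻¹) ^ m = (((mu0⁻¹) ^ m : ℝ) : ℂ) := by push_cast; rfl
    rw [e2, ← mul_assoc, Complex.re_mul_ofReal, re_z]
  rw [e1]
  congr 1
  rw [sub_sub]
  congr 1
  unfold Mass
  rw [Finset.mul_sum, Finset.mul_sum, ← Finset.sum_add_distrib]
  refine Finset.sum_congr rfl fun m _ => ?_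
  unfold Land
  have h3 : ∀ l ∈ (P SlitPlane m).filter (fun l => ¬ SlitPlane (l.headD (0, 0))),
      F 1 (1 / 5) (W l) * (mu0⁻¹) ^ m =
        (if W l = 5 then F 1 (1 / 5) 5 * (mu0⁻¹) ^ m else 0) +
        (if W l = -4 then F 1 (1 / 5) (-4) * (mu0⁻¹) ^ m else 0) := by
    intro l hl
    rw [Finset.mem_filter] at hl
    rcases class_slit m l hl.1 hl.2 with h | h
    · rw [if_pos h, if_neg (by omega), h]
      ring
    · rw [if_neg (by omega), if_pos h, h]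
      ring
  rw [Finset.sum_congr rfl h3, Finset.sum_add_distrib, ← Finset.sum_filter, ← Finset.sum_filter,
    Finset.filter_filter, Finset.filter_filter, Finset.sum_const, Finset.sum_const,
    nsmul_eq_mul, nsmul_eq_mul]
  ring

theorem mass_le_slit4 (p : Par) (hp : Ok p) (n : ℕ) :
    Mass (Om p) n (-4) ≤ Mass SlitPlane n (-4) := by
  apply mass_le_of_sub
  intro m l hl
  unfold Land at hl ⊢
  rw [Finset.mem_filter] at hl ⊢
  obtain ⟨h1, h2, h3⟩ := hl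
  refine ⟨P_mono (fun v hv => om_not_slit hv) h1, ?_, h3⟩
  have := class_om p hp m l h1 h2
  rw [h3] at this
  unfold Out at this
  unfold SlitPlane
  simp only [not_not]
  rcases this with h | h | h | h | h | h | h | h | h | h
  · exact h.2
  · exact h.2
  all_goals (exfalso; omega)

/-- comparison of the two sets of weights -/
theorem comp (k : ℤ) (hk : k ∈ Finset.Icc (-4 : ℤ) 5) (h5 : k ≠ 5) (h4 : k ≠ -4) :
    9670000 * F 1 (1 / 5) k ≤ v k ∧ v k ≤ 18200000 * F 1 (1 / 5) k := by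
  have a1 := r2_gt
  have a2 := r2_lt
  have a3 := s8_gt
  have a4 := s8_lt
  have a5 := c8_gt
  have a6 := c8_lt
  obtain ⟨r, hr⟩ : ∃ r, r = Real.sqrt 2 / 2 := ⟨_, rfl⟩
  obtain ⟨s, hs⟩ : ∃ s, s = Real.sin (Real.pi / 8) := ⟨_, rfl⟩
  obtain ⟨c, hc⟩ : ∃ c, c = Real.cos (Real.pi / 8) := ⟨_, rfl⟩
  rw [← hr] at a1 a2
  rw [← hs] at a3 a4
  rw [← hc] at a5 a6
  rw [Finset.mem_Icc] at hk
  obtain ⟨hk1, hk2⟩ := hk
  interval_cases k <;>
    first
    | exact absurd rfl h5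
    | exact absurd rfl h4
    | (simp only [F_m3, F_m2, F_m1, F_0, F_1, F_2, F_3, F_4, ← hr, ← hs, ← hc]
       refine ⟨?_, ?_⟩ <;> norm_num [v] <;> linarith)

theorem F5_neg : F 1 (1 / 5) 5 < 0 := by
  have a3 := s8_gt
  have a6 := c8_lt
  rw [F_5]
  linarith

theorem F4_neg : F 1 (1 / 5) (-4) < 0 := by
  rw [F_m4]; norm_num

/-- the potential and the masses on the slit -/
theorem phi_slit {p : Par} (h : Good p) (S : Finset V) (hS : ∀ x, Om p x → x ∈ S) (n : ℕ)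
    (hn : S.card ≤ n) :
    9670000 ≤ Phi p n ∧ Phi p n ≤ 18200000 * (1 - F 1 (1 / 5) 5 * Mass (Om p) n 5 -
      F 1 (1 / 5) (-4) * Mass (Om p) n (-4)) := by
  have hid := sum_F (fun k => Mass (Om p) n k) 1 (1 / 5) (mass_identity p h.ok S hS n hn)
  have hmn : ∀ k, 0 ≤ Mass (Om p) n k := fun k => mass_nonneg _ n k
  have e : Finset.Icc (-4 : ℤ) 5 = insert 5 (insert (-4) (Finset.Icc (-3 : ℤ) 4)) := by
    ext k
    simp only [Finset.mem_insert, Finset.mem_Icc]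
    omega
  have hsplit : ∀ f : ℤ → ℝ, ∑ k ∈ Finset.Icc (-4 : ℤ) 5, f k =
      f 5 + (f (-4) + ∑ k ∈ Finset.Icc (-3 : ℤ) 4, f k) := by
    intro f
    rw [e, Finset.sum_insert (by simp), Finset.sum_insert (by simp)]
  rw [hsplit] at hid
  have hv5 : v 5 = 0 := by norm_num [v]
  have hv4 : v (-4) = 0 := by norm_num [v]
  have hphi : Phi p n = ∑ k ∈ Finset.Icc (-3 : ℤ) 4, v k * Mass (Om p) n k := by
    unfold Phi
    rw [hsplit, hv5, hv4]
    ring
  have h5 := F5_neg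
  have h4 := F4_neg
  have hm5 := hmn 5
  have hm4 := hmn (-4)
  have hmem : ∀ k ∈ Finset.Icc (-3 : ℤ) 4, k ∈ Finset.Icc (-4 : ℤ) 5 ∧ k ≠ 5 ∧ k ≠ -4 := by
    intro k hk
    rw [Finset.mem_Icc] at hk ⊢
    omega
  have g1 : 9670000 * ∑ k ∈ Finset.Icc (-3 : ℤ) 4, F 1 (1 / 5) k * Mass (Om p) n k ≤ Phi p n := by
    rw [hphi, Finset.mul_sum]
    apply Finset.sum_le_sum
    intro k hk
    obtain ⟨a, b, c⟩ := hmem k hk
    rw [← mul_assoc]
    exact mul_le_mul_of_nonneg_right (comp k a b c).1 (hmn k)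
  have g2 : Phi p n ≤ 18200000 * ∑ k ∈ Finset.Icc (-3 : ℤ) 4, F 1 (1 / 5) k * Mass (Om p) n k := by
    rw [hphi, Finset.mul_sum]
    apply Finset.sum_le_sum
    intro k hk
    obtain ⟨a, b, c⟩ := hmem k hk
    rw [← mul_assoc]
    exact mul_le_mul_of_nonneg_right (comp k a b c).2 (hmn k)
  have hneg5 : F 1 (1 / 5) 5 * Mass (Om p) n 5 ≤ 0 := mul_nonpos_of_nonpos_of_nonneg h5.le hm5
  have hneg4 : F 1 (1 / 5) (-4) * Mass (Om p) n (-4) ≤ 0 :=
    mul_nonpos_of_nonpos_of_nonneg h4.le hm4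
  constructor
  · linarith
  · linarith

/-! ### the size of the domains -/

/-- bound for the size -/
structure Sz (p : Par) (X : ℝ) : Prop where
  s0 : -(p.c1 : ℝ) + 2 ≤ 0.05146 * X
  s1 : -(p.a2 : ℝ) + 2 ≤ 0.18191 * X
  s2 : 2 * (p.Q : ℝ) + 2 ≤ 0.46114 * X
  s3 : (p.d : ℝ) + 2 ≤ 0.98707 * X
  s4 : (p.b : ℝ) + 2 ≤ 1.85916 * X
  s5 : 2 * (p.R : ℝ) + 2 ≤ 3.08283 * X
  s6 : -(p.c3 : ℝ) + 2 ≤ 4.32567 * X
  s7 : -(p.a4 : ℝ) + 2 ≤ 4.32567 * X

theorem sz_step {p : Par} (h : Good p) {X : ℝ} (hX : 0 ≤ X) (hs : Sz p X) :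
    Sz (st p 8) (3.535 * X) := by
  obtain ⟨s0, s1, s2, s3, s4, s5, s6, s7⟩ := hs
  obtain ⟨⟨hb, hd, ha4, hc3, ha2, hc1, hR, hQ, b1, d2, a42, c31, a20, c11⟩, -⟩ := h
  have e0 : (st p 8).c1 = p.a2 + 1 := by simp only [st, push]
  have e1 : (st p 8).a2 = (st p 8).c1 - 2 * p.Q - 1 := by simp only [st, push]
  have e2 : (st p 8).Q = (p.d - (st p 8).a2) / 2 + 1 := by simp only [st, push]
  have e3 : (st p 8).d = p.b + 2 * (st p 8).Q + 1 := by simp only [st, push]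
  have e4 : (st p 8).b = (st p 8).d + 2 * p.R + 1 := by simp only [st, push]
  have e5 : (st p 8).R = ((st p 8).b - p.c3) / 2 + 1 := by simp only [st, push]
  have e6 : (st p 8).c3 = p.a4 - 2 * (st p 8).R - 1 := by simp only [st, push]
  have e7 : (st p 8).a4 = (st p 8).c3 + 1 := by simp only [st, push]
  generalize st p 8 = q at e0 e1 e2 e3 e4 e5 e6 e7 ⊢
  have f2 : 2 * q.Q = p.d - q.a2 + 2 := by omega
  have f5 : 2 * q.R = q.b - p.c3 + 2 := by omega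
  have r0 : (q.c1 : ℝ) = p.a2 + 1 := by exact_mod_cast e0
  have r1 : (q.a2 : ℝ) = q.c1 - 2 * p.Q - 1 := by exact_mod_cast e1
  have r2 : 2 * (q.Q : ℝ) = p.d - q.a2 + 2 := by exact_mod_cast f2
  have r3 : (q.d : ℝ) = p.b + 2 * q.Q + 1 := by exact_mod_cast e3
  have r4 : (q.b : ℝ) = q.d + 2 * p.R + 1 := by exact_mod_cast e4
  have r5 : 2 * (q.R : ℝ) = q.b - p.c3 + 2 := by exact_mod_cast f5
  have r6 : (q.c3 : ℝ) = p.a4 - 2 * q.R - 1 := by exact_mod_cast e6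
  have r7 : (q.a4 : ℝ) = q.c3 + 1 := by exact_mod_cast e7
  have t0 : -(q.c1 : ℝ) + 2 ≤ 0.05146 * (3.535 * X) := by linarith
  have t1 : -(q.a2 : ℝ) + 2 ≤ 0.18191 * (3.535 * X) := by linarith
  have t2 : 2 * (q.Q : ℝ) + 2 ≤ 0.46114 * (3.535 * X) := by linarith
  have t3 : (q.d : ℝ) + 2 ≤ 0.98707 * (3.535 * X) := by linarith
  have t4 : (q.b : ℝ) + 2 ≤ 1.85916 * (3.535 * X) := by linarith
  have t5 : 2 * (q.R : ℝ) + 2 ≤ 3.08283 * (3.535 * X) := by linarith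
  have t6 : -(q.c3 : ℝ) + 2 ≤ 4.32567 * (3.535 * X) := by linarith
  have t7 : -(q.a4 : ℝ) + 2 ≤ 4.32567 * (3.535 * X) := by linarith
  exact ⟨t0, t1, t2, t3, t4, t5, t6, t7⟩

/-- the first domain: one vertex -/
def p0 : Par where
  a4 := 2
  c3 := 1
  R := 0
  b := 1
  d := 2
  Q := 0
  a2 := 0
  c1 := 1

theorem good_p0 : Good p0 := by
  refine ⟨?_, ?_, ?_, ?_, ?_, ?_, ?_, ?_, ?_⟩ <;> (try constructor) <;> simp only [p0] <;> omega

theorem sz_p0 : Sz p0 20 := by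
  constructor <;> simp only [p0] <;> norm_num

/-- the domain after `j` sweeps -/
def dom : ℕ → Par
  | 0 => p0
  | j + 1 => st (dom j) 8

theorem good_dom (j : ℕ) : Good (dom j) := by
  induction j with
  | zero => exact good_p0
  | succ j ih => exact good_st ih 8 le_rfl

theorem sz_dom (j : ℕ) : Sz (dom j) (20 * 3.535 ^ j) := by
  induction j with
  | zero => rw [pow_zero, mul_one]; exact sz_p0
  | succ j ih =>
    have := sz_step (good_dom j) (by positivity) ih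
    have e : (3.535 : ℝ) * (20 * 3.535 ^ j) = 20 * 3.535 ^ (j + 1) := by rw [pow_succ]; ring
    rw [e] at this
    exact this

theorem om_dom {i j : ℕ} (hij : i ≤ j) (x : V) (hx : Om (dom i) x) : Om (dom j) x := by
  induction j with
  | zero =>
    have : i = 0 := by omega
    subst this
    exact hx
  | succ j ih =>
    rcases Nat.lt_or_ge i (j + 1) with h1 | h1
    · exact om_st (good_dom j) (i := 0) (j := 8) (by omega) le_rfl x (ih (by omega))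
    · have : i = j + 1 := by omega
      subst this
      exact hx

/-- a box containing the domain -/
theorem box {p : Par} {X : ℝ} (hX : 20 ≤ X) (hs : Sz p X) :
    ∃ S : Finset V, (∀ x, Om p x → x ∈ S) ∧ (S.card : ℝ) ≤ 11 * X ^ 2 := by
  obtain ⟨s0, s1, s2, s3, s4, s5, s6, s7⟩ := hs
  refine ⟨Finset.Icc (-⌊4.33 * X⌋) ⌊1.43 * X⌋ ×ˢ Finset.Icc (-⌊0.24 * X⌋) ⌊1.55 * X⌋, ?_, ?_⟩
  · intro x hx
    obtain ⟨o1, o2, o3, o4, o5, o6, o7⟩ := hx
    rw [Finset.mem_product, Finset.mem_Icc, Finset.mem_Icc]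
    have i1 : (x.2 : ℝ) ≤ p.R := by exact_mod_cast o1
    have i2 : -(p.Q : ℝ) ≤ x.2 := by exact_mod_cast o2
    have i3 : (x.1 : ℝ) + x.2 ≤ p.b := by exact_mod_cast o3
    have i4 : (x.1 : ℝ) - x.2 ≤ p.d := by exact_mod_cast o4
    refine ⟨⟨?_, ?_⟩, ?_, ?_⟩
    · rw [neg_le, Int.le_floor]
      push_cast
      rcases lt_trichotomy x.2 0 with c | c | c
      · obtain ⟨a, b⟩ := o7 (by omega)
        have i5 : (p.a2 : ℝ) ≤ (x.1 : ℝ) + x.2 := by exact_mod_cast a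
        have i6 : (p.c1 : ℝ) ≤ (x.1 : ℝ) - x.2 := by exact_mod_cast b
        linarith
      · have a := o6 c
        have i5 : (1 : ℝ) ≤ x.1 := by exact_mod_cast a
        linarith
      · obtain ⟨a, b⟩ := o5 (by omega)
        have i5 : (p.a4 : ℝ) ≤ (x.1 : ℝ) + x.2 := by exact_mod_cast a
        have i6 : (p.c3 : ℝ) ≤ (x.1 : ℝ) - x.2 := by exact_mod_cast b
        linarith
    · rw [Int.le_floor]
      linarith
    · rw [neg_le, Int.le_floor]
      push_cast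
      linarith
    · rw [Int.le_floor]
      linarith
  · rw [Finset.card_product, Int.card_Icc, Int.card_Icc]
    have b1 : (0 : ℤ) ≤ ⌊4.33 * X⌋ := Int.floor_nonneg.2 (by linarith)
    have b2 : (0 : ℤ) ≤ ⌊1.43 * X⌋ := Int.floor_nonneg.2 (by linarith)
    have b3 : (0 : ℤ) ≤ ⌊0.24 * X⌋ := Int.floor_nonneg.2 (by linarith)
    have b4 : (0 : ℤ) ≤ ⌊1.55 * X⌋ := Int.floor_nonneg.2 (by linarith)
    have f1 := Int.floor_le (4.33 * X)
    have f2 := Int.floor_le (1.43 * X)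
    have f3 := Int.floor_le (0.24 * X)
    have f4 := Int.floor_le (1.55 * X)
    have n1 : (((⌊1.43 * X⌋ + 1 - -⌊4.33 * X⌋).toNat : ℕ) : ℝ) ≤ 5.81 * X := by
      have : (((⌊1.43 * X⌋ + 1 - -⌊4.33 * X⌋).toNat : ℕ) : ℤ) = ⌊1.43 * X⌋ + 1 - -⌊4.33 * X⌋ :=
        Int.toNat_of_nonneg (by omega)
      have e : (((⌊1.43 * X⌋ + 1 - -⌊4.33 * X⌋).toNat : ℕ) : ℝ) =
          (⌊1.43 * X⌋ : ℝ) + 1 + (⌊4.33 * X⌋ : ℝ) := by
        have := congrArg (fun z : ℤ => (z : ℝ)) this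
        push_cast at this
        rw [this]; ring
      rw [e]
      linarith
    have n2 : (((⌊1.55 * X⌋ + 1 - -⌊0.24 * X⌋).toNat : ℕ) : ℝ) ≤ 1.84 * X := by
      have : (((⌊1.55 * X⌋ + 1 - -⌊0.24 * X⌋).toNat : ℕ) : ℤ) = ⌊1.55 * X⌋ + 1 - -⌊0.24 * X⌋ :=
        Int.toNat_of_nonneg (by omega)
      have e : (((⌊1.55 * X⌋ + 1 - -⌊0.24 * X⌋).toNat : ℕ) : ℝ) =
          (⌊1.55 * X⌋ : ℝ) + 1 + (⌊0.24 * X⌋ : ℝ) := by
        have := congrArg (fun z : ℤ => (z : ℝ)) this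
        push_cast at this
        rw [this]; ring
      rw [e]
      linarith
    push_cast
    calc _ ≤ (5.81 * X) * (1.84 * X) := by
          apply mul_le_mul n1 n2 (Nat.cast_nonneg _) (by positivity)
      _ ≤ 11 * X ^ 2 := by nlinarith [sq_nonneg X]

/-! ### the lower bound -/

theorem lower_j (j n : ℕ) (hn : 4400 * (3.535 ^ 2 : ℝ) ^ j ≤ n) :
    mu0 ^ n * (0.52 * gr ^ j) ≤ (Set.ncard (saws n) : ℝ) := by
  have hgr : (1 : ℝ) ≤ gr := by unfold gr; norm_num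
  have hX : (20 : ℝ) ≤ 20 * 3.535 ^ j := by
    have : (1 : ℝ) ≤ 3.535 ^ j := one_le_pow₀ (by norm_num)
    linarith
  obtain ⟨S, hS, hcard⟩ := box hX (sz_dom j)
  have hSn : S.card ≤ n := by
    have e : 11 * (20 * (3.535 : ℝ) ^ j) ^ 2 = 4400 * (3.535 ^ 2 : ℝ) ^ j := by
      rw [mul_pow, ← pow_mul, ← pow_mul, mul_comm j 2]; ring
    rw [e] at hcard
    exact_mod_cast hcard.trans hn
  have key : ∀ i : ℕ, i ≤ j → gr ^ i * 9670000 ≤ Phi (dom i) n := by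
    intro i
    induction i with
    | zero =>
      intro _
      rw [pow_zero, one_mul]
      exact (phi_slit (good_dom 0) S (fun x hx => hS x (om_dom (Nat.zero_le j) x hx)) n hSn).1
    | succ i ih =>
      intro hi
      have h1 := ih (by omega)
      have h2 := sweep_pot (good_dom i) S
        (fun x hx => hS x (om_dom (i := i + 1) (by omega) x hx)) n hSn
      have h0 : (0 : ℝ) ≤ gr := by linarith
      calc gr ^ (i + 1) * 9670000 = gr * (gr ^ i * 9670000) := by rw [pow_succ]; ring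
        _ ≤ gr * Phi (dom i) n := mul_le_mul_of_nonneg_left h1 h0
        _ ≤ _ := h2
  have h1 := key j le_rfl
  have h2 := (phi_slit (good_dom j) S hS n hSn).2
  have h3 := lower2 n
  have m5 := mass_le_slit (dom j) (good_dom j).ok n
  have m4 := mass_le_slit4 (dom j) (good_dom j).ok n
  have n5 := F5_neg
  have n4 := F4_neg
  have hmu : 0 < mu0 ^ n := pow_pos mu0_pos n
  have hb : gr ^ j * 9670000 ≤ 18200000 * (1 - F 1 (1 / 5) 5 * Mass SlitPlane n 5 -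
      F 1 (1 / 5) (-4) * Mass SlitPlane n (-4)) := by
    have c5 : F 1 (1 / 5) 5 * Mass SlitPlane n 5 ≤ F 1 (1 / 5) 5 * Mass (Om (dom j)) n 5 :=
      mul_le_mul_of_nonpos_left m5 n5.le
    have c4 : F 1 (1 / 5) (-4) * Mass SlitPlane n (-4) ≤
        F 1 (1 / 5) (-4) * Mass (Om (dom j)) n (-4) := mul_le_mul_of_nonpos_left m4 n4.le
    linarith
  have hgj : 0 < gr ^ j := pow_pos (by linarith) j
  have hc : 0.52 * gr ^ j ≤ 50 / 51 * (1 - F 1 (1 / 5) 5 * Mass SlitPlane n 5 -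
      F 1 (1 / 5) (-4) * Mass SlitPlane n (-4)) := by
    nlinarith
  calc mu0 ^ n * (0.52 * gr ^ j) ≤ mu0 ^ n * (50 / 51 * (1 - F 1 (1 / 5) 5 * Mass SlitPlane n 5 -
      F 1 (1 / 5) (-4) * Mass SlitPlane n (-4))) := mul_le_mul_of_nonneg_left hc hmu.le
    _ ≤ _ := by linarith

theorem rpow75 {a b : ℝ} (ha : 0 ≤ a) (hb : 0 ≤ b) (h : a ≤ b ^ 75) :
    a ^ ((1 : ℝ) / 75) ≤ b := by
  have h1 : a ^ ((1 : ℝ) / 75) ≤ (b ^ 75) ^ ((1 : ℝ) / 75) :=
    Real.rpow_le_rpow ha h (by norm_num)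
  have h2 : (b ^ 75) ^ ((1 : ℝ) / 75) = b := by
    have := Real.pow_rpow_inv_natCast hb (n := 75) (by norm_num)
    rw [one_div]
    exact_mod_cast this
  rwa [h2] at h1

/-- **The lower bound.** -/
theorem lower75 (n : ℕ) :
    2 / 5 * (mu0 ^ n * (n : ℝ) ^ ((1 : ℝ) / 75)) ≤ (Set.ncard (saws n) : ℝ) := by
  have hmu : 0 < mu0 ^ n := pow_pos mu0_pos n
  have hn0 : (0 : ℝ) ≤ n := Nat.cast_nonneg n
  have h44 : (4400 : ℝ) ^ ((1 : ℝ) / 75) ≤ 1.12 := by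
    apply rpow75 (by norm_num) (by norm_num)
    norm_num
  rcases lt_or_ge (n : ℝ) 4400 with h | h
  · have h1 : (n : ℝ) ^ ((1 : ℝ) / 75) ≤ 1.12 :=
      (Real.rpow_le_rpow hn0 h.le (by norm_num)).trans h44
    have h2 : mu0 ^ n ≤ (Set.ncard (saws n) : ℝ) := by
      refine le_trans ?_ (lower' n)
      have h2 : 0 ≤ Real.sin (Real.pi / 8) * Mass SlitPlane n 5 :=
        mul_nonneg sin_pi_div_eight_pos.le (mass_nonneg _ _ _)
      nlinarith
    have h3 : 2 / 5 * (mu0 ^ n * (n : ℝ) ^ ((1 : ℝ) / 75)) ≤ 2 / 5 * (mu0 ^ n * 1.12) := by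
      gcongr
    linarith
  · obtain ⟨j, hj1, hj2⟩ := exists_nat_pow_near (x := (n : ℝ) / 4400) (y := (3.535 : ℝ) ^ 2)
      (by rw [le_div_iff₀ (by norm_num)]; linarith) (by norm_num)
    have h1 := lower_j j n (by rw [le_div_iff₀ (by norm_num)] at hj1; linarith)
    rw [div_lt_iff₀ (by norm_num)] at hj2
    have h2 : (n : ℝ) ^ ((1 : ℝ) / 75) ≤ 1.12 * gr ^ (j + 1) := by
      have e1 : (n : ℝ) ≤ 4400 * ((3.535 : ℝ) ^ 2) ^ (j + 1) := by linarith
      have e2 : ((3.535 : ℝ) ^ 2) ^ ((1 : ℝ) / 75) ≤ gr := by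
        apply rpow75 (by norm_num) (by unfold gr; norm_num)
        unfold gr
        norm_num
      calc (n : ℝ) ^ ((1 : ℝ) / 75) ≤ (4400 * ((3.535 : ℝ) ^ 2) ^ (j + 1)) ^ ((1 : ℝ) / 75) :=
            Real.rpow_le_rpow hn0 e1 (by norm_num)
        _ = (4400 : ℝ) ^ ((1 : ℝ) / 75) * (((3.535 : ℝ) ^ 2) ^ ((1 : ℝ) / 75)) ^ (j + 1) := by
            rw [Real.mul_rpow (by norm_num) (by positivity), ← Real.rpow_natCast,
              ← Real.rpow_mul (by positivity), mul_comm (((j + 1 : ℕ) : ℝ)), Real.rpow_mul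
              (by positivity), Real.rpow_natCast]
        _ ≤ 1.12 * gr ^ (j + 1) := by gcongr
    have hgj : 0 < gr ^ j := pow_pos (by unfold gr; norm_num) j
    have h3 : 2 / 5 * (n : ℝ) ^ ((1 : ℝ) / 75) ≤ 0.52 * gr ^ j := by
      calc 2 / 5 * (n : ℝ) ^ ((1 : ℝ) / 75) ≤ 2 / 5 * (1.12 * gr ^ (j + 1)) := by gcongr
        _ = (2 / 5 * 1.12 * gr) * gr ^ j := by rw [pow_succ]; ring
        _ ≤ 0.52 * gr ^ j := by
            apply mul_le_mul_of_nonneg_right _ hgj.le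
            unfold gr
            norm_num
    calc 2 / 5 * (mu0 ^ n * (n : ℝ) ^ ((1 : ℝ) / 75))
        = mu0 ^ n * (2 / 5 * (n : ℝ) ^ ((1 : ℝ) / 75)) := by ring
      _ ≤ mu0 ^ n * (0.52 * gr ^ j) := mul_le_mul_of_nonneg_left h3 hmu.le
      _ ≤ _ := h1

end Pool.Agent.TH232.Hex
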