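import Pool.Agent.H978R2.Hex.Rn
import Pool.Agent.TH232.Hex.Low

set_option autoImplicit false

/-! Consequences for the non-intersection probabilities on the honeycomb lattice. -/

namespace Pool.Agent.TH232.Hex

open Filter Topology H978R2.Hex

theorem Rn_lower75 (n : ℕ) (hn : 1 ≤ n) : 1 / 75 * Real.log n - 1 ≤ Rn n := by
  have hn0 : (0 : ℝ) < n := by exact_mod_cast hn
  have h := lower75 n
  have h0 : 0 < 2 / 5 * (mu0 ^ n * (n : ℝ) ^ ((1 : ℝ) / 75)) :=
    mul_pos (by norm_num) (mul_pos (pow_pos mu0_pos n) (Real.rpow_pos_of_pos hn0 _))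
  have h1 := Real.log_le_log h0 h
  rw [Real.log_mul (by norm_num)
      (mul_pos (pow_pos mu0_pos n) (Real.rpow_pos_of_pos hn0 _)).ne',
    Real.log_mul (pow_pos mu0_pos n).ne' (Real.rpow_pos_of_pos hn0 _).ne', Real.log_pow,
    Real.log_rpow hn0] at h1
  have h2 : -1 ≤ Real.log (2 / 5) := by
    rw [Real.le_log_iff_exp_le (by norm_num), Real.exp_neg]
    have h3 := Real.exp_one_gt_d9
    rw [inv_le_comm₀ (Real.exp_pos 1) (by norm_num)]
    linarith
  unfold Rn
  linarith

/-- small values of the probability, for infinitely many lengths -/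
theorem exists_small75 (δ : ℝ) (hδ : δ < 1 / 75) :
    ∃ N : ℕ, ∀ n : ℕ, N ≤ n → ∃ j : ℕ, Pd (2 ^ j * n) ≤ ((2 ^ j * n : ℕ) : ℝ) ^ (-δ) := by
  rcases le_or_gt δ 0 with h0 | h0
  · refine ⟨1, fun n hn => ⟨0, (Pd_le_one _).trans ?_⟩⟩
    have : (1 : ℝ) ≤ ((2 ^ 0 * n : ℕ) : ℝ) := by
      rw [pow_zero, one_mul]
      exact_mod_cast hn
    exact Real.one_le_rpow this (by linarith)
  · have hlog : Tendsto (fun n : ℕ => (1 / 75 - δ) * Real.log n) atTop atTop :=
      (Real.tendsto_log_atTop.comp tendsto_natCast_atTop_atTop).const_mul_atTop (by linarith)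
    obtain ⟨N, hN⟩ := Filter.eventually_atTop.1
      (hlog.eventually_gt_atTop (δ * Real.log 2 + 1))
    refine ⟨max N 1, fun n hn => ?_⟩
    have hn1 : 1 ≤ n := (le_max_right _ _).trans hn
    have hn0 : (0 : ℝ) < n := by exact_mod_cast hn1
    have hlogn : 0 ≤ Real.log n := Real.log_nonneg (by exact_mod_cast hn1)
    by_contra hcon
    push Not at hcon
    have hlog2 : 0 ≤ Real.log 2 := Real.log_nonneg (by norm_num)
    have h1 : ∀ j : ℕ, Real.log (1 / Pd (2 ^ j * n)) ≤ δ * Real.log n + j * (δ * Real.log 2) := by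
      intro j
      have h2 := hcon j
      have hpos : (0 : ℝ) < ((2 ^ j * n : ℕ) : ℝ) := by
        push_cast
        positivity
      have h3 := Real.log_le_log (Real.rpow_pos_of_pos hpos _) h2.le
      rw [Real.log_rpow hpos] at h3
      rw [one_div, Real.log_inv]
      have h4 : Real.log ((2 ^ j * n : ℕ) : ℝ) = j * Real.log 2 + Real.log n := by
        push_cast
        rw [Real.log_mul (by positivity) hn0.ne', Real.log_pow]
      rw [h4] at h3
      linarith
    have h2 : ∀ K : ℕ, ∑ j ∈ Finset.range K, (1 / 2 : ℝ) ^ (j + 1) *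
        Real.log (1 / Pd (2 ^ j * n)) ≤ δ * Real.log n + δ * Real.log 2 := by
      intro K
      calc ∑ j ∈ Finset.range K, (1 / 2 : ℝ) ^ (j + 1) * Real.log (1 / Pd (2 ^ j * n))
          ≤ ∑ j ∈ Finset.range K, (1 / 2 : ℝ) ^ (j + 1) * (δ * Real.log n + j * (δ * Real.log 2)) :=
            Finset.sum_le_sum fun j _ => mul_le_mul_of_nonneg_left (h1 j) (by positivity)
        _ = _ := sum_aux _ _ K
        _ ≤ _ := by
            have h5 : (0 : ℝ) ≤ (1 / 2) ^ K := by positivity
            have h6 : 0 ≤ δ * Real.log n := mul_nonneg h0.le hlogn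
            have h7 : 0 ≤ δ * Real.log 2 := mul_nonneg h0.le hlog2
            have h8 : 0 ≤ δ * Real.log n * (1 / 2) ^ K := mul_nonneg h6 h5
            have h9 : 0 ≤ δ * Real.log 2 * (((K : ℝ) + 1) * (1 / 2) ^ K) :=
              mul_nonneg h7 (mul_nonneg (by positivity) h5)
            nlinarith
    have h3 : Rn n ≤ δ * Real.log n + δ * Real.log 2 :=
      le_of_tendsto' ((hasSum_iff_tendsto_nat_of_nonneg (fun j =>
        mul_nonneg (by positivity) (log_Pd_nonneg _)) _).1 (hasSum_Pd n hn1)) h2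
    have h4 := Rn_lower75 n hn1
    have h5 := hN n ((le_max_left _ _).trans hn)
    nlinarith

theorem exponent75 (α : ℝ)
    (h : Tendsto (fun n : ℕ => Real.log (Pd n) / Real.log n) atTop (𝓝 α)) : α ≤ -(1 / 75) := by
  by_contra hα
  push Not at hα
  obtain ⟨δ, h1, h2⟩ := exists_between (show -α < 1 / 75 by linarith)
  obtain ⟨N, hN⟩ := exists_small75 δ h2
  have h3 := h.eventually_const_lt (show -δ < α by linarith)
  obtain ⟨M, hM⟩ := Filter.eventually_atTop.1 h3
  set n := max (max N M) 2 with hn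
  obtain ⟨j, hj⟩ := hN n ((le_max_left _ _).trans (le_max_left _ _))
  have hnj : n ≤ 2 ^ j * n := Nat.le_mul_of_pos_left _ (by positivity)
  have h4 := hM (2 ^ j * n) (((le_max_right _ _).trans (le_max_left _ _)).trans hnj)
  have hn2 : 2 ≤ 2 ^ j * n := (le_max_right _ _).trans hnj
  have hpos : (1 : ℝ) < ((2 ^ j * n : ℕ) : ℝ) := by exact_mod_cast (by omega : 1 < 2 ^ j * n)
  have hlog : 0 < Real.log ((2 ^ j * n : ℕ) : ℝ) := Real.log_pos hpos
  rw [lt_div_iff₀ hlog] at h4
  have h5 := Real.log_le_log (Pd_pos _) hj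
  rw [Real.log_rpow (by linarith)] at h5
  linarith

end Pool.Agent.TH232.Hex
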